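import Pool.Agent.H614.WS.Main

/-! # Montgomery's exponent `1/k` over `F_q[t]`: powers and badly approximable coefficients

Let `F` be a finite field with `q` elements, `K = F((1/t))`, `ψ` a nontrivial additive character of
`F`, `e(f) = ψ(coefficient of t^(-1) of f)`, `X = q^N` and
`S_N(α, ξ) = ∑ e(α x^k + ξ x)`, the sum over the polynomials `x` of degree `< N`.
An element `α = ∑ α_i t^(-i-1)` is given by its digits `α : ℕ → F` (integral parts play no role).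
The inequality of `H_k(η)` reads
`|S_N(α, ξ)| ≤ C X^(1+ε) (1/|g| + 1/X + |g|/X^k)^η` whenever `a/g` is a reduced fraction with
`|g| ≤ X` and `|α - a/g| ≤ |g|^(-2)`; the right side without `C` is `rhs q k N (deg g) ε η`.

Let `Q = q^b`, `b ≥ 1`, and `k = Q + 1`.

1. For all `γ` in `K`, all `ξ`, `N` and all `r` the inequality with `η = 1/k`, the exponent of
   Montgomery's conjecture, holds for `α = γ^n`, `n = Q^(2r)`, with `ε = 1/(k n)` and `C = q^n`.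
2. If `γ` is badly approximable then `α = γ^n` is badly approximable and the maximum over `ξ` of
   `|S_N(α, ξ)|` lies between `c X^(1 - 1/k - (1/2 - 1/k)/n)` and `C X^(1 - 1/k + 1/(k n))`, for all `N`.
3. There are badly approximable `γ` with arbitrary digits at the places of odd index.
4. For `η > 1/k` the inequality of `H_k(η)` fails, for some `ε > 0`, at badly approximable `α`: for
   every `C` and all large `N` there are `ξ` and a reduced fraction `a/g` as above with `|g| ≥ c X`. -/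

set_option autoImplicit false

open Polynomial Filter
open Pool.Agent.H614.WS

namespace Pool.Agent.Results.MP_3b0be2_nt.BadlyApproximableCoefficients

theorem result (F : Type) [Field F] [Fintype F] (ψ : AddChar F ℂ) (hψ : ψ ≠ 1) (q b Q k : ℕ)
    (hq : q = Fintype.card F) (hb : 1 ≤ b) (hQ : Q = q ^ b) (hk : k = Q + 1) :
    -- 1. Montgomery's bound for `α = γ^n`
    (∀ r n : ℕ, n = Q ^ (2 * r) → ∀ (γ ξ : ℕ → F) (N : ℕ) (g : F[X]), Reduced (pw n γ) g N →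
      ‖S ψ k N (pw n γ) ξ‖ ≤ (q : ℝ) ^ n * rhs q k N g.natDegree (1 / (k * n)) (1 / k)) ∧
    -- 2. the size of the sums for badly approximable `γ`
    (∀ r n : ℕ, n = Q ^ (2 * r) → ∀ γ : ℕ → F, Bad γ → Bad (pw n γ) ∧
      ∃ c C : ℝ, 0 < c ∧ 0 < C ∧ ∀ N : ℕ,
        (∀ ξ, ‖S ψ k N (pw n γ) ξ‖ ≤ C * (q : ℝ) ^ ((1 - 1 / (k : ℝ) + 1 / (k * n)) * N)) ∧
        (∃ ξ, c * (q : ℝ) ^ ((1 - 1 / (k : ℝ) - (1 / 2 - 1 / (k : ℝ)) / n) * N)
          ≤ ‖S ψ k N (pw n γ) ξ‖)) ∧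
    -- 3. there are many badly approximable elements
    (∀ δ : ℕ → F, ∃ γ : ℕ → F, Bad γ ∧ ∀ i, γ (2 * i + 1) = δ i) ∧
    -- 4. no larger exponent, even for badly approximable coefficients
    (∀ η : ℝ, 1 / (k : ℝ) < η → ∃ ε : ℝ, 0 < ε ∧ ∃ r n : ℕ, n = Q ^ (2 * r) ∧
      ∀ γ : ℕ → F, Bad γ → Bad (pw n γ) ∧ ∃ c : ℕ, ∀ C : ℝ, ∀ᶠ N : ℕ in atTop,
        ∃ (ξ : ℕ → F) (g : F[X]), Reduced (pw n γ) g N ∧ N ≤ g.natDegree + c ∧
          C * rhs q k N g.natDegree ε η < ‖S ψ k N (pw n γ) ξ‖) := by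
  classical
  have hq1 : (1 : ℝ) < (q : ℝ) := by rw [hq]; exact one_lt_q
  have hq0 : (0 : ℝ) < (q : ℝ) := by linarith
  have hqN : 1 < q := by exact_mod_cast hq1
  have hQ2 : 2 ≤ Q := by
    rw [hQ]
    calc 2 ≤ q := hqN
      _ = q ^ 1 := (pow_one q).symm
      _ ≤ q ^ b := Nat.pow_le_pow_right (by omega) hb
  obtain ⟨R, hR⟩ : ∃ R, Q = R + 1 := ⟨Q - 1, by omega⟩
  have hR1 : 1 ≤ R := by omega
  have hST : ∀ (N : ℕ) (α ξ : ℕ → F), S ψ k N α ξ = T ψ (R + 1) N α ξ := by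
    intro N α ξ
    rw [hk, S_eq_T ψ Q b N (by rw [hQ, hq]) α ξ, hR]
  have hkR : (k : ℝ) = (R : ℝ) + 2 := by
    rw [hk, hR]; push_cast; ring
  have hQR : ∀ r : ℕ, Q ^ (2 * r) = (R + 1) ^ (2 * r) := fun r => by rw [hR]
  have hk3 : 3 ≤ k := by omega
  have part2 : ∀ r n : ℕ, n = Q ^ (2 * r) → ∀ γ : ℕ → F, Bad γ → Bad (pw n γ) ∧
      ∃ c C : ℝ, 0 < c ∧ 0 < C ∧ ∀ N : ℕ,
        (∀ ξ, ‖S ψ k N (pw n γ) ξ‖ ≤ C * (q : ℝ) ^ ((1 - 1 / (k : ℝ) + 1 / (k * n)) * N)) ∧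
        (∃ ξ, c * (q : ℝ) ^ ((1 - 1 / (k : ℝ) - (1 / 2 - 1 / (k : ℝ)) / n) * N)
          ≤ ‖S ψ k N (pw n γ) ξ‖) := by
    intro r n hn γ hγ
    obtain ⟨c₀, hc₀⟩ := hγ
    have hn1 : 1 ≤ n := by rw [hn]; exact Nat.one_le_pow _ _ (by omega)
    refine ⟨⟨_, bad_pw γ c₀ n hn1 hc₀⟩, ?_⟩
    obtain ⟨c, C, hc, hC, h⟩ := bounds ψ hψ R hR1 γ c₀ hc₀ r n (by rw [hn, hQR])
    refine ⟨c, C, hc, hC, fun N => ?_⟩
    obtain ⟨h1, h2⟩ := h N
    rw [← hq] at h1 h2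
    rw [hkR]
    refine ⟨fun ξ => ?_, ?_⟩
    · rw [hST]; exact h1 ξ
    · obtain ⟨ξ, h3⟩ := h2
      exact ⟨ξ, by rw [hST]; exact h3⟩
  refine ⟨?_, part2, ?_, ?_⟩
  · intro r n hn γ ξ N g hg
    have h1 := main_upper ψ hψ R r n (by rw [hn, hQR]) γ ξ N g hg
    rw [← hq, ← hkR] at h1
    rw [hST]
    refine h1.trans (mul_le_mul_of_nonneg_left ?_ (by positivity))
    exact rhs_lower q hq1 k N g.natDegree (1 / (k * n)) (by omega)
  · intro δ
    obtain ⟨γ, h1, h2⟩ := exists_bad (fun i => δ (i / 2))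
    refine ⟨γ, ⟨0, h2⟩, fun i => ?_⟩
    rw [h1 i]
    congr 1
    omega
  · intro η hη
    set ε : ℝ := (η - 1 / (k : ℝ)) / 4 with hε
    have hε0 : 0 < ε := by rw [hε]; linarith
    -- choose `r`
    obtain ⟨r, hr⟩ : ∃ r : ℕ, 1 / ε < ((Q ^ (2 * r) : ℕ) : ℝ) := by
      obtain ⟨m, hm⟩ := exists_nat_gt (1 / ε)
      refine ⟨m, hm.trans_le ?_⟩
      have h1 : m ≤ Q ^ (2 * m) := by
        calc m ≤ 2 * m := by omega
          _ ≤ Q ^ (2 * m) := (Nat.lt_pow_self (by omega)).le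
      exact_mod_cast h1
    refine ⟨ε, hε0, r, Q ^ (2 * r), rfl, fun γ hγ => ?_⟩
    obtain ⟨hbad, c₁, C₁, hc₁, -, hb⟩ := part2 r _ rfl γ hγ
    refine ⟨hbad, ?_⟩
    obtain ⟨c, hc⟩ := hbad
    set n := Q ^ (2 * r) with hn
    refine ⟨c, fun C => ?_⟩
    have hn0 : (0 : ℝ) < (n : ℝ) := lt_trans (by positivity) hr
    have hk0 : (0 : ℝ) < (k : ℝ) := by exact_mod_cast (by omega : 0 < k)
    have hη0 : 0 ≤ η := le_trans (by positivity) hη.le
    -- the exponent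
    have hτ : 1 - 1 / (k : ℝ) - ε ≤ 1 - 1 / (k : ℝ) - (1 / 2 - 1 / (k : ℝ)) / n := by
      have h1 : (1 / 2 - 1 / (k : ℝ)) / n ≤ 1 / n := by
        apply div_le_div_of_nonneg_right _ hn0.le
        have : 0 < 1 / (k : ℝ) := by positivity
        linarith
      have h2 : 1 / (n : ℝ) ≤ ε := by
        rw [div_le_iff₀ hn0]
        rw [div_lt_iff₀ hε0] at hr
        linarith
      linarith
    set A : ℝ := ((q : ℝ) ^ c + 2) ^ η with hA
    have hA0 : 0 < A := by rw [hA]; positivity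
    -- eventually `|C| A q^((1 + ε - η) N) < c₁ q^((1 - 1/k - ε) N)`
    have hev : ∀ᶠ N : ℕ in atTop, |C| * A / c₁ < (q : ℝ) ^ (2 * ε * (N : ℝ)) := by
      have h1 : Tendsto (fun N : ℕ => (q : ℝ) ^ (2 * ε * (N : ℝ))) atTop atTop := by
        have h2 : Tendsto (fun N : ℕ => ((q : ℝ) ^ (2 * ε)) ^ N) atTop atTop :=
          tendsto_pow_atTop_atTop_of_one_lt (Real.one_lt_rpow hq1 (by positivity))
        refine h2.congr (fun N => ?_)
        rw [← Real.rpow_natCast, ← Real.rpow_mul hq0.le]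
      exact h1.eventually_gt_atTop _
    filter_upwards [hev] with N hN
    obtain ⟨g, hg0, hgN, hcop, hres⟩ := dirichlet (pw n γ) N
    obtain ⟨ξ, hξ⟩ := (hb N).2
    have hNg : N ≤ g.natDegree + c := by
      obtain ⟨j, hj, hne⟩ := hc g hg0
      by_contra hcon
      exact hne (hres j (by omega))
    refine ⟨ξ, g, ⟨hg0, hgN, hcop, fun j hj => hres j (by omega)⟩, hNg, ?_⟩
    have hr1 := rhs_upper q hq1 k N g.natDegree c ε η hη0 (by omega) hgN hNg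
    have hr0 : 0 ≤ rhs q k N g.natDegree ε η := by unfold rhs; positivity
    calc C * rhs q k N g.natDegree ε η ≤ |C| * rhs q k N g.natDegree ε η :=
          mul_le_mul_of_nonneg_right (le_abs_self C) hr0
      _ ≤ |C| * (A * (q : ℝ) ^ ((1 + ε - η) * N)) :=
          mul_le_mul_of_nonneg_left hr1 (abs_nonneg C)
      _ < c₁ * (q : ℝ) ^ ((1 - 1 / (k : ℝ) - ε) * N) := by
          have e1 : (1 - 1 / (k : ℝ) - ε) * (N : ℝ) = (1 + ε - η) * N + 2 * ε * N := by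
            rw [hε]; ring
          rw [e1, Real.rpow_add hq0]
          rw [div_lt_iff₀ hc₁] at hN
          have h3 : 0 < (q : ℝ) ^ ((1 + ε - η) * (N : ℝ)) := Real.rpow_pos_of_pos hq0 _
          have h4 := mul_lt_mul_of_pos_right hN h3
          calc |C| * (A * (q : ℝ) ^ ((1 + ε - η) * (N : ℝ)))
              = |C| * A * (q : ℝ) ^ ((1 + ε - η) * (N : ℝ)) := by ring
            _ < (q : ℝ) ^ (2 * ε * (N : ℝ)) * c₁ * (q : ℝ) ^ ((1 + ε - η) * (N : ℝ)) := h4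
            _ = _ := by ring
      _ ≤ c₁ * (q : ℝ) ^ ((1 - 1 / (k : ℝ) - (1 / 2 - 1 / (k : ℝ)) / n) * N) := by
          apply mul_le_mul_of_nonneg_left _ hc₁.le
          apply Real.rpow_le_rpow_of_exponent_le hq1.le
          exact mul_le_mul_of_nonneg_right hτ (Nat.cast_nonneg N)
      _ ≤ _ := hξ

end Pool.Agent.Results.MP_3b0be2_nt.BadlyApproximableCoefficients
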