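import Pool.Agent.H614.HK.Ext
import Pool.Agent.H614.HK.Opt
import Pool.Agent.H614.HK.Opt2

/-!
# Montgomery's conjecture on Weyl sums over `F_q[T]`, `k = p^j + 1`: the exponent `1/k`

Let `K = F_q` be any finite field, `p` its characteristic, `k = p^j + 1` with `j ≥ 1` (for `p = 2`:
`k = 3, 5, 9, …`; every `k` such that `k - 1` is a prime power occurs), `ψ` a nontrivial additive character of
`F_q`.  For `α ∈ F_q((1/T))`, an interval `{w + x : deg x < n}` with `N = q^n` elements and an arbitrary additive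
function `ξ` (for instance `ξ(x) = res(ξ₀ x + ξ₁ x^p + …)`) put
`S = ∑_{deg x < n} ψ(res(α (w + x)^k) + ξ(x))`.

`H K ψ k η` is the literal analogue of the hypothesis `H_k(η)`: for every `ε > 0` there is `C` such that
`|∑_{deg x < n} e(α x^k + ξ x)| ≤ C N^(1+ε) (1/|g| + 1/N + |g|/N^k)^η` for all `n`, all `α`, `ξ` in `F_q((1/T))` and
all coprime `b`, `g ≠ 0` with `|g| ≤ N` and `|α - b/g| ≤ |g|^(-2)`.

1. `|S| ≤ C N^(1+ε) (1/|g| + 1/N + |g|/N^k)^(1/k)` for all `α`, `w`, `ξ` and all coprime `b`, `g ≠ 0` with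
   `|α - b/g| ≤ |g|^(-2)`, without any restriction on `|g|`; and even `|S| ≤ C N |g|^(-1/k + ε)` if `|g| ≤ N`.
2. For `η ≥ 0`: `H_k(η)` holds if and only if `η ≤ 1/k`.  In particular Montgomery's conjecture `H_k(1/k)` holds
   over `F_q[T]` for these `k`, and `1/k` is the best possible exponent.
3. `S = N |g|^(-1/k)` for `α = 1/g`, `g = P^k`, `P` monic irreducible, `|g| ≤ N`, `w = ξ = 0`.

Idea of 1.  Let `Q = p^j` and let `β(x, y) = ℓ(res(α x^Q y))`, a bilinear form over the prime field with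
`β(c x, y) = β(x, c^Q y)` for all polynomials `c`.  Then `|S|² ≤ N |W|`, where `W` is the set of `h` with
`β(x, h) + β(h, x) = 0` for all `x` (all polynomials here of degree `< n`).  Let `B_0 = 0` and let `B_{j+1}` be the
set of the `x` for which there is `y ∈ B_j` with `β(x, z) = β(z, y)` for all `z`; let `H_j` be the set of the
functionals `z ↦ β(z, y)`, `y ∈ B_j`.  Multiplication by a fixed polynomial respects these spaces up to
bounded codimension.  For fixed `J`, and up to `O(1)`: `dim W ≤ dim (W ∩ B_J) + dim / (J + 1)` (if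
`∑ t^(i Q^(2J)) h_i = 0`, `h_i ∈ W`, `i ≤ J`, then `∑ t^(i Q^(2r)) h_i ∈ B_{J-r}`, and a Vandermonde determinant with
the nodes `t^(Q^(2r))` gives `h_i ∈ B_J`); `dim (W ∩ B_J) ≤ dim B_J - dim H_J`; `β = 0` on `B_J`, so
`dim B_J + dim H_J ≤ dim`; and `dim B_J ≤ Q dim H_J`, because `x` is determined by the functionals
`z ↦ β(z, t^i x)`, `i < Q`.  Hence `dim W ≤ (Q - 1)/(Q + 1) dim + dim / (J + 1) + O(1)`.

Weyl's step `|S|² ≤ N |W|`, the comparison of `W` for two values of `n`, the nonsingularity of the Hankel form and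
part 3 are taken from the project WS of helper527.  An independent second proof of the main bound, by helper527 and
the seats of the project MW, is in `Pool/Agent/H527/MW`.
-/

set_option autoImplicit false

namespace Pool.Agent.Results.MP_3b0be2_nt.MontgomeryExponent

open Polynomial
open Pool.Agent.H527
open scoped Classical

noncomputable section

/-- The polynomials of degree `< n`. -/
def Box (K : Type) [Field K] [Fintype K] (n : ℕ) : Finset K[X] :=
  Finset.univ.image (fun c : Fin n → K => ∑ i : Fin n, C (c i) * X ^ (i : ℕ))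

/-- The embedding of `K[T]` into `K((1/T))`: `LaurentSeries K` is the field of Laurent series in `1/T`, and
`T` is sent to `(1/T)^(-1)`. -/
def emb {K : Type} [Field K] : K[X] →+* LaurentSeries K :=
  eval₂RingHom HahnSeries.C (HahnSeries.single (-1 : ℤ) (1 : K))

/-- The residue: the coefficient of `1/T`. -/
def res {K : Type} [Field K] (β : LaurentSeries K) : K := β.coeff 1

/-- The Weyl sum `∑_{deg x < n} ψ(res(α (w + x)^k) + ξ(x))`. -/
def S {K : Type} [Field K] [Fintype K] (ψ : AddChar K ℂ) (k n : ℕ) (α : LaurentSeries K) (w : K[X])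
    (ξ : K[X] →+ K) : ℂ :=
  ∑ x ∈ Box K n, ψ (res (α * emb ((w + x) ^ k)) + ξ x)

/-- `|α - b/g| ≤ |g|⁻¹ q^(-r)`, that is `|g α - b| ≤ q^(-r)`: the coefficients of `(1/T)^i`, `i < r`, of
`g α - b` vanish. -/
def Near {K : Type} [Field K] (α : LaurentSeries K) (b g : K[X]) (r : ℕ) : Prop :=
  ∀ i : ℤ, i < r → (emb g * α - emb b).coeff i = 0

/-- The analogue over `K[T]` of the hypothesis `H_k(η)`; here `N = q^n` and `|g| = q^(deg g)`. -/
def H (K : Type) [Field K] [Fintype K] (ψ : AddChar K ℂ) (k : ℕ) (η : ℝ) : Prop :=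
  ∀ ε : ℝ, 0 < ε → ∃ C : ℝ, ∀ (n : ℕ) (α ξ : LaurentSeries K) (b g : K[X]), IsCoprime b g → g ≠ 0 →
    g.natDegree ≤ n → Near α b g g.natDegree →
    ‖∑ x ∈ Box K n, ψ (res (α * emb (x ^ k) + ξ * emb x))‖ ≤
      C * (((Fintype.card K : ℝ) ^ n) ^ (1 + ε) *
        (1 / (Fintype.card K : ℝ) ^ g.natDegree + 1 / (Fintype.card K : ℝ) ^ n +
          (Fintype.card K : ℝ) ^ g.natDegree / ((Fintype.card K : ℝ) ^ n) ^ k) ^ η)

/-- **Main theorem**. -/
theorem result (K : Type) [Field K] [Fintype K] (p j k : ℕ) (hp : p.Prime) (hK : CharP K p) (hj : 1 ≤ j)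
    (hk : k = p ^ j + 1) (ψ : AddChar K ℂ) (hψ : ψ ≠ 1) (q : ℝ) (hq : q = Fintype.card K) :
    -- 1. the bound, for all leading coefficients
    (∀ ε : ℝ, 0 < ε → ∃ C : ℝ, ∀ (n : ℕ) (α : LaurentSeries K) (w : K[X]) (ξ : K[X] →+ K) (b g : K[X]),
      IsCoprime b g → g ≠ 0 → Near α b g g.natDegree →
        ‖S ψ k n α w ξ‖ ≤ C * ((q ^ n) ^ (1 + ε) *
          (1 / q ^ g.natDegree + 1 / q ^ n + q ^ g.natDegree / (q ^ n) ^ k) ^ ((1 : ℝ) / k)) ∧
        (g.natDegree ≤ n → ‖S ψ k n α w ξ‖ ≤ C * q ^ ((n : ℝ) - (1 / k - ε) * g.natDegree))) ∧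
    -- 2. `H_k(η)` holds if and only if `η ≤ 1/k`
    (∀ η : ℝ, 0 ≤ η → (H K ψ k η ↔ η ≤ 1 / k)) ∧
    -- 3. the exponent `1/k` is attained
    (∀ (P : K[X]) (n : ℕ), P.Monic → Irreducible P → k * P.natDegree ≤ n →
      S ψ k n (emb (P ^ k))⁻¹ 0 0 = q ^ (n - P.natDegree)) := by
  have hQ : WS.PQ K (p ^ j) := ⟨p, j, hp, hK, hj, rfl⟩
  have hpj : 1 ≤ p ^ j := Nat.one_le_pow _ _ hp.pos
  have hpj2 : 2 ≤ p ^ j := by
    calc 2 ≤ p := hp.two_le
      _ = p ^ 1 := (pow_one p).symm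
      _ ≤ p ^ j := Nat.pow_le_pow_right hp.pos hj
  -- the shift `w` only changes `ξ` and a constant factor
  have hshift : ∀ (n : ℕ) (α : LaurentSeries K) (w : K[X]) (ξ : K[X] →+ K), ∃ ξ' : K[X] →+ K,
      ‖S ψ k n α w ξ‖ = ‖WS.S ψ (p ^ j) n (WS.fn α) ξ'‖ := by
    intro n α w ξ
    refine ⟨⟨⟨fun x => WS.fn α (w ^ (p ^ j) * x + w * x ^ (p ^ j)) + ξ x, ?_⟩, ?_⟩, ?_⟩
    · rw [map_zero, zero_pow (by omega)]
      simp
    · intro x y
      show WS.fn α (w ^ (p ^ j) * (x + y) + w * (x + y) ^ (p ^ j)) + ξ (x + y) =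
        WS.fn α (w ^ (p ^ j) * x + w * x ^ (p ^ j)) + ξ x +
          (WS.fn α (w ^ (p ^ j) * y + w * y ^ (p ^ j)) + ξ y)
      rw [map_add ξ, add_add_add_comm, ← map_add (WS.fn α)]
      congr 2
      have := Fact.mk hp
      have := hK
      rw [add_pow_char_pow]
      ring
    · have h1 : S ψ k n α w ξ = ψ (WS.fn α (w ^ k)) * WS.S ψ (p ^ j) n (WS.fn α)
          ⟨⟨fun x => WS.fn α (w ^ (p ^ j) * x + w * x ^ (p ^ j)) + ξ x, by
            rw [map_zero, zero_pow (by omega)]; simp⟩, by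
            intro x y
            show WS.fn α (w ^ (p ^ j) * (x + y) + w * (x + y) ^ (p ^ j)) + ξ (x + y) =
              WS.fn α (w ^ (p ^ j) * x + w * x ^ (p ^ j)) + ξ x +
                (WS.fn α (w ^ (p ^ j) * y + w * y ^ (p ^ j)) + ξ y)
            rw [map_add ξ, add_add_add_comm, ← map_add (WS.fn α)]
            congr 2
            have := Fact.mk hp
            have := hK
            rw [add_pow_char_pow]
            ring⟩ := by
        unfold S WS.S
        rw [Finset.mul_sum]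
        refine Finset.sum_congr rfl fun x _ => ?_
        rw [← AddChar.map_add_eq_mul]
        congr 1
        show WS.fn α ((w + x) ^ k) + ξ x = WS.fn α (w ^ k) + (WS.fn α (x ^ (p ^ j + 1)) +
          (WS.fn α (w ^ (p ^ j) * x + w * x ^ (p ^ j)) + ξ x))
        rw [← add_assoc (WS.fn α (x ^ (p ^ j + 1))), ← add_assoc, ← map_add, ← map_add]
        congr 2
        have := Fact.mk hp
        have := hK
        rw [hk, pow_succ, pow_succ, pow_succ, add_pow_char_pow]
        ring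
      rw [h1, norm_mul, AddChar.norm_apply, one_mul]
  have hkr : (k : ℝ) = ((p ^ j : ℕ) : ℝ) + 1 := by rw [hk]; push_cast; ring
  have hq1 : (1 : ℝ) < q := by rw [hq]; exact_mod_cast Fintype.one_lt_card (α := K)
  -- part 1
  have part1 : ∀ ε : ℝ, 0 < ε → ∃ C : ℝ, 0 < C ∧ ∀ (n : ℕ) (α : LaurentSeries K) (w : K[X]) (ξ : K[X] →+ K)
      (b g : K[X]), IsCoprime b g → g ≠ 0 → g.natDegree ≤ n → Near α b g g.natDegree →
        ‖S ψ k n α w ξ‖ ≤ C * q ^ ((n : ℝ) - (1 / k - ε) * g.natDegree) := by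
    intro ε hε
    obtain ⟨C, hC, h⟩ := H614.HK.fin (K := K) hQ hψ ε hε
    refine ⟨C, hC, fun n α w ξ b g hc hg hn hN => ?_⟩
    obtain ⟨ξ', hξ⟩ := hshift n α w ξ
    rw [hξ, hkr, hq]
    exact h n α ξ' b g hc hg hn hN
  -- part 3
  have part3 : ∀ (P : K[X]) (n : ℕ), P.Monic → Irreducible P → k * P.natDegree ≤ n →
      S ψ k n (emb (P ^ k))⁻¹ 0 0 = q ^ (n - P.natDegree) := by
    intro P n hP hI hn
    have h4 := WS.fin4 (K := K) hQ hψ P hP hI n (by rw [← hk]; exact hn)
    rw [← hk] at h4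
    have h5 : S ψ k n (emb (P ^ k))⁻¹ 0 0 = WS.S ψ (p ^ j) n (WS.fn (WS.emb (P ^ k))⁻¹) 0 := by
      unfold S WS.S
      refine Finset.sum_congr rfl fun x _ => ?_
      rw [zero_add, ← hk]
      rfl
    rw [h5, h4, hq]
    push_cast
    rfl
  refine ⟨fun ε hε => ?_, fun η hη => ⟨fun hH => ?_, fun hηk => ?_⟩, part3⟩
  · obtain ⟨C, hC, h⟩ := part1 ε hε
    obtain ⟨C', hC', h'⟩ := H614.HK.ext (K := K) hQ hψ ε hε
    have hkn : p ^ j = k - 1 := by omega
    refine ⟨max C C', fun n α w ξ b g hc hg hN => ⟨?_, fun hn => ?_⟩⟩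
    · rcases Nat.le_total g.natDegree n with hn | hn
      · refine (h n α w ξ b g hc hg hn hN).trans ?_
        refine (H614.HK.ineq_up q hq1 k n g.natDegree (1 / k) ε C hε hC.le (by positivity) le_rfl hn).trans ?_
        exact mul_le_mul_of_nonneg_right (le_max_left _ _) (by positivity)
      · obtain ⟨ξ', hξ⟩ := hshift n α w ξ
        rw [hξ, hkn]
        have h1 := h' n α ξ' b g hc hg hn hN
        rw [← hkr, ← hq, hkn] at h1
        refine h1.trans ?_
        refine (mul_le_mul_of_nonneg_left (H614.HK.ineq_ext q hq1 k n g.natDegree (by omega) ε) hC'.le).trans ?_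
        exact mul_le_mul_of_nonneg_right (le_max_right _ _) (by positivity)
    · refine (h n α w ξ b g hc hg hn hN).trans ?_
      exact mul_le_mul_of_nonneg_right (le_max_left _ _) (by positivity)
  · -- no larger exponent
    by_contra hlt
    push Not at hlt
    obtain ⟨C, hC⟩ := hH ((η - 1 / k) / 2) (by linarith)
    obtain ⟨m₀, hm₀⟩ := H614.HK.ineq_down q hq1 k (by omega) η C hlt
    obtain ⟨P, hP, hI, hPm⟩ := H614.HK.exists_irr K m₀
    have h1 := hm₀ P.natDegree hPm
    have h2 := part3 P (k * P.natDegree) hP hI le_rfl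
    have hg0 : P ^ k ≠ 0 := pow_ne_zero _ hP.ne_zero
    have hgd : (P ^ k).natDegree = k * P.natDegree := natDegree_pow P k
    have h3 := hC (k * P.natDegree) (emb (P ^ k))⁻¹ 0 1 (P ^ k) isCoprime_one_left hg0 hgd.le (by
      intro i _
      have hne : emb (P ^ k) ≠ 0 := by
        intro h0
        exact hg0 (WS.Dir118.emb_inj h0)
      rw [mul_inv_cancel₀ hne, map_one, sub_self]
      rfl)
    have h4 : ∑ x ∈ Box K (k * P.natDegree), ψ (res ((emb (P ^ k))⁻¹ * emb (x ^ k) + 0 * emb x))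
        = S ψ k (k * P.natDegree) (emb (P ^ k))⁻¹ 0 0 := by
      unfold S
      refine Finset.sum_congr rfl fun x _ => ?_
      rw [zero_mul, add_zero, zero_add, AddMonoidHom.zero_apply, add_zero]
    rw [h4, h2, hgd, ← hq] at h3
    have h5 : ‖((q : ℂ)) ^ (k * P.natDegree - P.natDegree)‖ = q ^ (k * P.natDegree - P.natDegree) := by
      rw [norm_pow, Complex.norm_real, Real.norm_eq_abs, abs_of_pos (by linarith)]
    rw [h5] at h3
    linarith
  · -- the exponents `≤ 1/k`
    intro ε hε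
    obtain ⟨C, hC, h⟩ := part1 ε hε
    refine ⟨C, fun n α ξ b g hc hg hn hN => ?_⟩
    have h1 := h n α 0 ⟨⟨fun x => res (ξ * emb x), by rw [map_zero, mul_zero]; rfl⟩, fun x y => by
      show res (ξ * emb (x + y)) = res (ξ * emb x) + res (ξ * emb y)
      rw [map_add, mul_add]; rfl⟩ b g hc hg hn hN
    have h2 : ∑ x ∈ Box K n, ψ (res (α * emb (x ^ k) + ξ * emb x)) =
        S ψ k n α 0 ⟨⟨fun x => res (ξ * emb x), by rw [map_zero, mul_zero]; rfl⟩, fun x y => by
          show res (ξ * emb (x + y)) = res (ξ * emb x) + res (ξ * emb y)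
          rw [map_add, mul_add]; rfl⟩ := by
      unfold S
      refine Finset.sum_congr rfl fun x _ => ?_
      rw [zero_add]
      rfl
    rw [h2]
    refine h1.trans ?_
    rw [← hq]
    exact H614.HK.ineq_up q hq1 k n g.natDegree η ε C hε hC.le hη hηk hn

end

end Pool.Agent.Results.MP_3b0be2_nt.MontgomeryExponent
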